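import Pool.Agent.Q215.TD.Stm

/-!
# Project TD: the topological conjugacy for parameters with finite distance (S_CONJ)
-/

set_option autoImplicit false

namespace Pool.Agent.Q198.TD

open Filter Topology Pool.Agent.Q215.TD

variable {n : ℕ}

lemma rad_pos (k : ℕ) : 0 < rad k := by
  unfold rad
  positivity

lemma rad_le (k : ℕ) : rad k ≤ 1 / 32 := by
  unfold rad
  apply one_div_le_one_div_of_le (by norm_num)
  have : (0 : ℝ) ≤ k := Nat.cast_nonneg k
  nlinarith

lemma abs_rp (k : ℕ) : |rp k| = 1 / ((k : ℝ) + 1) := by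
  unfold rp
  have : (0 : ℝ) < (k : ℝ) + 1 := by positivity
  rw [abs_div, abs_pow, abs_neg, abs_one, one_pow, abs_of_pos this]

lemma abs_rp_le (k : ℕ) : |rp k| ≤ 1 := by
  rw [abs_rp]
  have h : (0 : ℝ) ≤ (k : ℝ) := Nat.cast_nonneg k
  rw [div_le_one (by linarith)]
  linarith

lemma sep {k l : ℕ} (h : k < l) : 2 * rad k + 2 * rad l ≤ |rp k - rp l| := by
  have h1 : |rp k| - |rp l| ≤ |rp k - rp l| := abs_sub_abs_le_abs_sub _ _
  rw [abs_rp, abs_rp] at h1
  have hk : (0 : ℝ) ≤ (k : ℝ) := Nat.cast_nonneg k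
  have hl : (k : ℝ) + 1 ≤ (l : ℝ) := by exact_mod_cast h
  have h2 : 1 / ((l : ℝ) + 1) ≤ 1 / ((k : ℝ) + 2) :=
    one_div_le_one_div_of_le (by linarith) (by linarith)
  have h3 : 1 / ((k : ℝ) + 1) - 1 / ((k : ℝ) + 2) = 1 / (((k : ℝ) + 1) * ((k : ℝ) + 2)) := by
    field_simp
    ring
  have h4 : rad l ≤ rad k := by
    unfold rad
    apply one_div_le_one_div_of_le (by positivity)
    nlinarith
  have h5 : 4 * rad k ≤ 1 / (((k : ℝ) + 1) * ((k : ℝ) + 2)) := by
    unfold rad
    rw [le_div_iff₀ (by positivity), mul_one_div, div_mul_eq_mul_div, div_le_one (by positivity)]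
    nlinarith
  linarith

lemma sep' {k l : ℕ} {u : ℝ} (hk : |u - rp k| < 2 * rad k) (hl : |u - rp l| < 2 * rad l) :
    k = l := by
  rcases lt_trichotomy k l with h | h | h
  · have h1 := sep h
    have h2 : |rp k - rp l| ≤ |u - rp k| + |u - rp l| := by
      have : rp k - rp l = (u - rp l) - (u - rp k) := by ring
      rw [this]
      exact (abs_sub _ _).trans (by linarith)
    linarith
  · exact h
  · have h1 := sep h
    have h2 : |rp l - rp k| ≤ |u - rp l| + |u - rp k| := by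
      have : rp l - rp k = (u - rp k) - (u - rp l) := by ring
      rw [this]
      exact (abs_sub _ _).trans (by linarith)
    linarith

lemma pl_nonneg (α r t : ℝ) : 0 ≤ pl α r t := le_max_left _ _

lemma pl_le (α r t : ℝ) : pl α r t ≤ 1 := max_le (by norm_num) (min_le_left _ _)

/-- Two families of functions of the first real coordinate and the second component. -/
structure Sl (A B : ℕ → W n → ℝ) (c : ℕ → ℝ) : Prop where
  cA : ∀ j, Continuous (A j)
  cB : ∀ j, Continuous (B j)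
  mA : ∀ j w, A j w ∈ Set.Icc (1 / 4 : ℝ) (3 / 4)
  mB : ∀ j w, B j w ∈ Set.Icc (1 / 4 : ℝ) (3 / 4)
  iA : ∀ j w w', w.1.re = w'.1.re → w.2 = w'.2 → A j w = A j w'
  iB : ∀ j w w', w.1.re = w'.1.re → w.2 = w'.2 → B j w = B j w'
  bd : ∀ j w, |B j w - A j w| ≤ c j
  su : Summable c
  lo : ∀ j w, A j w ≠ B j w → |w.1.re - rp (2 * j)| < 2 * rad (2 * j) ∧ ‖w.2‖ < 2 * rad (2 * j)

lemma Sl.symm {A B : ℕ → W n → ℝ} {c : ℕ → ℝ} (S : Sl A B c) : Sl B A c where
  cA := S.cB
  cB := S.cA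
  mA := S.mB
  mB := S.mA
  iA := S.iB
  iB := S.iA
  bd := fun j w => by rw [abs_sub_comm]; exact S.bd j w
  su := S.su
  lo := fun j w h => S.lo j w (Ne.symm h)

/-- The summand. -/
noncomputable def Dl (A B : ℕ → W n → ℝ) (j : ℕ) (w : W n) : ℝ :=
  (B j w - A j w) * pl (A j w) (rad (2 * j)) w.1.im

/-- The shear. -/
noncomputable def G (A B : ℕ → W n → ℝ) (w : W n) : W n :=
  w + ((⟨0, ∑' j, Dl A B j w⟩ : ℂ), 0)

lemma G_of {A B : ℕ → W n → ℝ} {c : ℕ → ℝ} (S : Sl A B c) {w : W n} {j : ℕ}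
    (hj : |w.1.re - rp (2 * j)| < 2 * rad (2 * j)) :
    G A B w = w + ((⟨0, Dl A B j w⟩ : ℂ), 0) := by
  have h : ∑' j, Dl A B j w = Dl A B j w := by
    apply tsum_eq_single
    intro l hl
    have h1 : A l w = B l w := by
      by_contra h2
      have h3 := (S.lo l w h2).1
      have h4 := sep' h3 hj
      omega
    unfold Dl
    rw [h1]
    simp
  unfold G
  rw [h]

lemma G_id {A B : ℕ → W n → ℝ} {w : W n} (h : ∀ j, Dl A B j w = 0) : G A B w = w := by
  unfold G
  simp [h]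
  rfl

lemma G_re (A B : ℕ → W n → ℝ) (w : W n) : (G A B w).1.re = w.1.re := by
  simp [G]

lemma G_snd (A B : ℕ → W n → ℝ) (w : W n) : (G A B w).2 = w.2 := by
  simp [G]

lemma G_inv (hpl : S_PL) {A B : ℕ → W n → ℝ} {c : ℕ → ℝ} (S : Sl A B c) (w : W n) :
    G B A (G A B w) = w := by
  by_cases h : ∃ j, A j w ≠ B j w
  · obtain ⟨j, hj⟩ := h
    have h1 := (S.lo j w hj).1
    have h2 := G_of S h1
    have h3 : |(G A B w).1.re - rp (2 * j)| < 2 * rad (2 * j) := by
      rw [G_re]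
      exact h1
    have h4 := G_of S.symm h3
    have hA : A j (G A B w) = A j w := S.iA j _ _ (G_re A B w) (G_snd A B w)
    have hB : B j (G A B w) = B j w := S.iB j _ _ (G_re A B w) (G_snd A B w)
    have him : (G A B w).1.im = w.1.im + Dl A B j w := by
      rw [h2]
      simp
    have h5 := (hpl (rad (2 * j)) (rad_pos _) (rad_le _)).2.2.2 (A j w) (B j w) w.1.im
      (S.mA j w).1 (S.mA j w).2 (S.mB j w).1 (S.mB j w).2
    rw [h4]
    have h6 : Dl B A j (G A B w) = - Dl A B j w := by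
      unfold Dl at him ⊢
      rw [hA, hB, him]
      linarith
    rw [h6]
    nth_rewrite 1 [h2]
    rw [add_assoc]
    have h7 : (((⟨0, Dl A B j w⟩ : ℂ), (0 : EuclideanSpace ℝ (Fin n))) +
        ((⟨0, -Dl A B j w⟩ : ℂ), 0)) = 0 := by
      apply Prod.ext
      · apply Complex.ext <;> simp
      · simp
    rw [h7, add_zero]
  · push Not at h
    have h1 : G A B w = w := G_id (fun j => by unfold Dl; rw [h j]; simp)
    have h2 : G B A w = w := G_id (fun j => by unfold Dl; rw [h j]; simp)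
    rw [h1, h2]

lemma Dl_cont (hpl : S_PL) {A B : ℕ → W n → ℝ} {c : ℕ → ℝ} (S : Sl A B c) (j : ℕ) :
    Continuous (Dl A B j) := by
  unfold Dl
  apply Continuous.mul ((S.cB j).sub (S.cA j))
  have h1 := (hpl (rad (2 * j)) (rad_pos _) (rad_le _)).1
  have h2 : Continuous (fun w : W n => ((⟨A j w, S.mA j w⟩ : Set.Icc (1 / 4 : ℝ) (3 / 4)),
      w.1.im)) := by
    apply Continuous.prodMk
    · exact Continuous.subtype_mk (S.cA j) _
    · exact Complex.continuous_im.comp continuous_fst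
  exact h1.comp h2

lemma Dl_le {A B : ℕ → W n → ℝ} {c : ℕ → ℝ} (S : Sl A B c) (j : ℕ) (w : W n) :
    ‖Dl A B j w‖ ≤ c j := by
  unfold Dl
  rw [norm_mul, Real.norm_eq_abs, Real.norm_eq_abs, abs_of_nonneg (pl_nonneg _ _ _)]
  calc |B j w - A j w| * pl (A j w) (rad (2 * j)) w.1.im ≤ |B j w - A j w| * 1 :=
        mul_le_mul_of_nonneg_left (pl_le _ _ _) (abs_nonneg _)
    _ ≤ c j := by rw [mul_one]; exact S.bd j w

lemma G_cont (hpl : S_PL) {A B : ℕ → W n → ℝ} {c : ℕ → ℝ} (S : Sl A B c) :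
    Continuous (G A B) := by
  have h1 : Continuous (fun w => ∑' j, Dl A B j w) :=
    continuous_tsum (Dl_cont hpl S) S.su (Dl_le S)
  unfold G
  apply Continuous.add continuous_id
  apply Continuous.prodMk _ continuous_const
  have h2 : (fun w : W n => (⟨0, ∑' j, Dl A B j w⟩ : ℂ)) =
      fun w => ((∑' j, Dl A B j w : ℝ) : ℂ) * Complex.I := by
    funext w
    apply Complex.ext <;> simp
  rw [h2]
  exact (Complex.continuous_ofReal.comp h1).mul continuous_const

lemma G_out (hpl : S_PL) {A B : ℕ → W n → ℝ} {c : ℕ → ℝ} (S : Sl A B c) (w : W n)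
    (hw : 3 ≤ ‖w‖) : G A B w = w := by
  apply G_id
  intro j
  by_cases h : A j w = B j w
  · unfold Dl
    rw [h]
    simp
  · obtain ⟨h1, h2⟩ := S.lo j w h
    have hr := rad_le (2 * j)
    by_cases ht : w.1.im ≤ 0 ∨ 1 ≤ w.1.im
    · have h3 := (hpl (rad (2 * j)) (rad_pos _) (rad_le _)).2.2.1 (A j w) w.1.im
        (S.mA j w).1 (S.mA j w).2 ht
      unfold Dl
      rw [h3, mul_zero]
    · exfalso
      push Not at ht
      have h4 : |w.1.re| ≤ 1 + 2 * rad (2 * j) := by
        have h5 : w.1.re = (w.1.re - rp (2 * j)) + rp (2 * j) := by ring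
        rw [h5]
        have h6 := abs_rp_le (2 * j)
        exact (abs_add_le _ _).trans (by linarith)
      have h7 : ‖w.1‖ < 3 := by
        have h8 := Complex.norm_le_abs_re_add_abs_im w.1
        rw [abs_of_pos ht.1] at h8
        linarith [ht.2]
      have h9 : ‖w.2‖ < 3 := by linarith
      have h10 : ‖w‖ < 3 := by
        rw [Prod.norm_def]
        exact max_lt h7 h9
      linarith

lemma G_supp (hpl : S_PL) {A B : ℕ → W n → ℝ} {c : ℕ → ℝ} (S : Sl A B c) : Supp (G A B) where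
  cont := G_cont hpl S
  out := G_out hpl S
  ins := by
    intro w hw
    by_contra h
    push Not at h
    have h1 := G_out hpl S.symm (G A B w) h
    rw [G_inv hpl S w] at h1
    rw [← h1] at h
    linarith

/-! ## The two families -/

/-- The cut-off function in the first real coordinate and the second component. -/
noncomputable def tau (k : ℕ) (w : W n) : ℝ :=
  max 0 (min 1 (2 - max |w.1.re - rp k| ‖w.2‖ / rad k))

lemma tau_nonneg (k : ℕ) (w : W n) : 0 ≤ tau k w := le_max_left _ _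

lemma tau_le (k : ℕ) (w : W n) : tau k w ≤ 1 := max_le (by norm_num) (min_le_left _ _)

lemma tau_cont (k : ℕ) : Continuous (tau (n := n) k) := by
  unfold tau
  fun_prop

lemma tau_ne {k : ℕ} {w : W n} (h : tau k w ≠ 0) :
    |w.1.re - rp k| < 2 * rad k ∧ ‖w.2‖ < 2 * rad k := by
  have h1 : max |w.1.re - rp k| ‖w.2‖ < 2 * rad k := by
    by_contra h2
    push Not at h2
    apply h
    unfold tau
    have h3 : 2 ≤ max |w.1.re - rp k| ‖w.2‖ / rad k := by
      rw [le_div_iff₀ (rad_pos k)]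
      exact h2
    apply max_eq_left
    exact (min_le_right _ _).trans (by linarith)
  exact max_lt_iff.mp h1

lemma tau_one {k : ℕ} {w : W n} (h : |w.1.re - rp k| ≤ rad k) (h' : ‖w.2‖ ≤ rad k) :
    tau k w = 1 := by
  unfold tau
  have h1 : max |w.1.re - rp k| ‖w.2‖ / rad k ≤ 1 := by
    rw [div_le_one (rad_pos k)]
    exact max_le h h'
  have h2 : min 1 (2 - max |w.1.re - rp k| ‖w.2‖ / rad k) = 1 := by
    apply min_eq_left
    linarith
  rw [h2]
  norm_num

lemma sq_mem (t : ℝ) : Q215.TD.sq t ∈ Set.Icc (1 / 4 : ℝ) (3 / 4) := by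
  unfold Q215.TD.sq
  constructor
  · exact le_max_left _ _
  · exact max_le (by norm_num) (min_le_left _ _)

lemma sq_lip (s t : ℝ) : |Q215.TD.sq s - Q215.TD.sq t| ≤ |s - t| := by
  unfold Q215.TD.sq
  calc |max (1 / 4) (min (3 / 4) s) - max (1 / 4) (min (3 / 4) t)|
      ≤ |min (3 / 4) s - min (3 / 4) t| := by
        have := abs_max_sub_max_le_max (1 / 4 : ℝ) (min (3 / 4) s) (1 / 4) (min (3 / 4) t)
        simpa using this
    _ ≤ |s - t| := by
        have := abs_min_sub_min_le_max (3 / 4 : ℝ) s (3 / 4) t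
        simpa using this

/-- The constant family. -/
noncomputable def Af (x : ℕ → ℝ) (j : ℕ) (_ : W n) : ℝ := Q215.TD.sq (x j)

/-- The interpolating family. -/
noncomputable def Bf (x y : ℕ → ℝ) (j : ℕ) (w : W n) : ℝ :=
  Q215.TD.sq (x j) + tau (2 * j) w * (Q215.TD.sq (y j) - Q215.TD.sq (x j))

lemma Sl_AB {x y : ℕ → ℝ} (h : Summable (fun j => |x j - y j|)) :
    Sl (n := n) (Af x) (Bf x y) (fun j => |x j - y j|) where
  cA := fun j => continuous_const
  cB := fun j => by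
    unfold Bf
    exact continuous_const.add ((tau_cont _).mul continuous_const)
  mA := fun j w => sq_mem _
  mB := fun j w => by
    have h1 := tau_nonneg (2 * j) w
    have h2 := tau_le (2 * j) w
    have h3 := sq_mem (x j)
    have h4 := sq_mem (y j)
    unfold Bf
    constructor
    · nlinarith [mul_nonneg h1 (sub_nonneg.mpr h4.1), mul_nonneg (sub_nonneg.mpr h2)
        (sub_nonneg.mpr h3.1)]
    · nlinarith [mul_nonneg h1 (sub_nonneg.mpr h4.2), mul_nonneg (sub_nonneg.mpr h2)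
        (sub_nonneg.mpr h3.2)]
  iA := fun j w w' _ _ => rfl
  iB := fun j w w' h1 h2 => by
    unfold Bf tau
    rw [h1, h2]
  bd := fun j w => by
    unfold Af Bf
    have h1 : Q215.TD.sq (x j) + tau (2 * j) w * (Q215.TD.sq (y j) - Q215.TD.sq (x j)) -
        Q215.TD.sq (x j) =
      tau (2 * j) w * (Q215.TD.sq (y j) - Q215.TD.sq (x j)) := by ring
    rw [h1, abs_mul, abs_of_nonneg (tau_nonneg _ _)]
    have h2 := sq_lip (y j) (x j)
    rw [abs_sub_comm (y j)] at h2
    calc tau (2 * j) w * |Q215.TD.sq (y j) - Q215.TD.sq (x j)|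
        ≤ 1 * |Q215.TD.sq (y j) - Q215.TD.sq (x j)| :=
          mul_le_mul_of_nonneg_right (tau_le _ _) (abs_nonneg _)
      _ ≤ |x j - y j| := by rw [one_mul]; exact h2
  su := h
  lo := fun j w hw => by
    apply tau_ne
    intro h0
    apply hw
    unfold Af Bf
    rw [h0]
    ring

/-! ## Values on the balls -/

lemma qn_lt {w c : W n} {ρ : ℝ} (hρ : 0 < ρ) (h : qn (w - c) < ρ ^ 2) :
    |w.1.re - c.1.re| ≤ ρ ∧ |w.1.im - c.1.im| ≤ ρ ∧ ‖w.2 - c.2‖ ≤ ρ := by
  unfold qn at h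
  have h1 : ‖(w - c).1‖ < ρ := by
    apply lt_of_pow_lt_pow_left₀ 2 hρ.le
    nlinarith [sq_nonneg ‖(w - c).2‖]
  have h2 : ‖(w - c).2‖ < ρ := by
    apply lt_of_pow_lt_pow_left₀ 2 hρ.le
    nlinarith [sq_nonneg ‖(w - c).1‖]
  refine ⟨?_, ?_, ?_⟩
  · have := Complex.abs_re_le_norm (w - c).1
    simp at this
    exact this.trans h1.le
  · have := Complex.abs_im_le_norm (w - c).1
    simp at this
    exact this.trans h1.le
  · exact h2.le

lemma cen_diff_even (x y : ℕ → ℝ) (j : ℕ) :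
    (cen y (2 * j) : W n) - cen x (2 * j) =
      ((⟨0, Q215.TD.sq (y j) - Q215.TD.sq (x j)⟩ : ℂ), 0) := by
  have h1 : 2 * j % 2 = 0 := by omega
  have h2 : 2 * j / 2 = j := by omega
  unfold cen ht
  rw [h1, h2]
  apply Prod.ext
  · apply Complex.ext <;> simp
  · simp

lemma cen_diff_odd (x y : ℕ → ℝ) {k : ℕ} (hk : k % 2 = 1) :
    (cen y k : W n) - cen x k = 0 := by
  unfold cen ht
  simp [hk]

lemma G_odd {A B : ℕ → W n → ℝ} {c : ℕ → ℝ} (S : Sl A B c) {w : W n} {k : ℕ} (hk : k % 2 = 1)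
    (h : |w.1.re - rp k| ≤ rad k) : G A B w = w := by
  apply G_id
  intro j
  have h1 : A j w = B j w := by
    by_contra h2
    have h3 := (S.lo j w h2).1
    have h4 : |w.1.re - rp k| < 2 * rad k := by linarith [rad_pos k]
    have h5 := sep' h3 h4
    omega
  unfold Dl
  rw [h1]
  simp

lemma h_val (hpl : S_PL) {x y : ℕ → ℝ} (hs : Summable (fun j => |x j - y j|)) {w : W n} {k : ℕ}
    (h : qn (w - cen x k) < rad k ^ 2) :
    G (Af x) (Bf x y) w = w + (cen y k - cen x k) := by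
  obtain ⟨h1, h2, h3⟩ := qn_lt (rad_pos k) h
  have h1' : |w.1.re - rp k| ≤ rad k := h1
  rcases Nat.mod_two_eq_zero_or_one k with hk | hk
  · obtain ⟨j, rfl⟩ : ∃ j, k = 2 * j := ⟨k / 2, by omega⟩
    have h3' : ‖w.2‖ ≤ rad (2 * j) := by
      have : (cen (n := n) x (2 * j)).2 = 0 := rfl
      rw [this, sub_zero] at h3
      exact h3
    have hta : tau (2 * j) w = 1 := tau_one h1' h3'
    have him : (cen (n := n) x (2 * j)).1.im = Q215.TD.sq (x j) := by
      have h4 : 2 * j / 2 = j := by omega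
      simp [cen, Q215.TD.ht]
    rw [him] at h2
    have hp := (hpl (rad (2 * j)) (rad_pos _) (rad_le _)).2.1 (Q215.TD.sq (x j)) w.1.im
      (sq_mem _).1 (sq_mem _).2 h2
    rw [G_of (Sl_AB hs) (j := j) (by linarith [rad_pos (2 * j)]), cen_diff_even]
    have h5 : Dl (n := n) (Af x) (Bf x y) j w = Q215.TD.sq (y j) - Q215.TD.sq (x j) := by
      unfold Dl Af Bf
      rw [hp, hta]
      ring
    rw [h5]
  · rw [cen_diff_odd x y hk, add_zero]
    exact G_odd (Sl_AB hs) hk h1'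

lemma h'_val (hpl : S_PL) {x y : ℕ → ℝ} (hs : Summable (fun j => |x j - y j|)) {w : W n} {k : ℕ}
    (h : qn (w - cen y k) < rad k ^ 2) :
    G (Bf x y) (Af x) w = w - (cen y k - cen x k) := by
  obtain ⟨h1, h2, h3⟩ := qn_lt (rad_pos k) h
  have h1' : |w.1.re - rp k| ≤ rad k := h1
  rcases Nat.mod_two_eq_zero_or_one k with hk | hk
  · obtain ⟨j, rfl⟩ : ∃ j, k = 2 * j := ⟨k / 2, by omega⟩
    have h3' : ‖w.2‖ ≤ rad (2 * j) := by
      have : (cen (n := n) y (2 * j)).2 = 0 := rfl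
      rw [this, sub_zero] at h3
      exact h3
    have hta : tau (2 * j) w = 1 := tau_one h1' h3'
    have him : (cen (n := n) y (2 * j)).1.im = Q215.TD.sq (y j) := by
      have h4 : 2 * j / 2 = j := by omega
      simp [cen, Q215.TD.ht]
    rw [him] at h2
    have hp := (hpl (rad (2 * j)) (rad_pos _) (rad_le _)).2.1 (Q215.TD.sq (y j)) w.1.im
      (sq_mem _).1 (sq_mem _).2 h2
    rw [G_of (Sl_AB hs).symm (j := j) (by linarith [rad_pos (2 * j)]), cen_diff_even]
    have hB : Bf (n := n) x y j w = Q215.TD.sq (y j) := by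
      unfold Bf
      rw [hta]
      ring
    have h5 : Dl (n := n) (Bf x y) (Af x) j w = - (Q215.TD.sq (y j) - Q215.TD.sq (x j)) := by
      unfold Dl Af
      rw [hB, hp]
      ring
    rw [h5]
    have h6 : (((⟨0, -(Q215.TD.sq (y j) - Q215.TD.sq (x j))⟩ : ℂ),
        (0 : EuclideanSpace ℝ (Fin n)))) =
        -((⟨0, Q215.TD.sq (y j) - Q215.TD.sq (x j)⟩ : ℂ), (0 : EuclideanSpace ℝ (Fin n))) := by
      apply Prod.ext
      · apply Complex.ext <;> simp
      · simp
    rw [h6, ← sub_eq_add_neg]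
  · rw [cen_diff_odd x y hk, sub_zero]
    exact G_odd (Sl_AB hs).symm hk h1'

theorem t_CONJ : S_CONJ := by
  intro hF hpl n N hN x y hs
  have hV := hF n N hN 1 (Or.inl rfl)
  obtain ⟨-, hx2, hx3, -⟩ := hV x
  obtain ⟨-, hy2, hy3, -⟩ := hV y
  refine ⟨G (Af x) (Bf x y), G (Bf x y) (Af x), G_supp hpl (Sl_AB hs),
    G_supp hpl (Sl_AB hs).symm, G_inv hpl (Sl_AB hs), G_inv hpl (Sl_AB hs).symm, ?_⟩
  intro w
  by_cases hw : ∃ k, qn (w - cen x k) < rad k ^ 2
  · obtain ⟨k, hk⟩ := hw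
    obtain ⟨h1, h2⟩ := hx2 w k hk
    have h3 := h_val hpl hs h2
    have h4 := h_val hpl hs hk
    have h5 : G (Af x) (Bf x y) w - cen y k = w - cen x k := by
      rw [h4]
      abel
    have h6 : qn (G (Af x) (Bf x y) w - cen y k) < rad k ^ 2 := by
      rw [h5]
      exact hk
    obtain ⟨h7, -⟩ := hy2 _ k h6
    rw [h3, h7, h5, h1]
    abel
  · push Not at hw
    rw [hx3 w hw]
    rw [hy3]
    intro k
    by_contra h
    push Not at h
    have h1 := h'_val hpl hs h
    rw [G_inv hpl (Sl_AB hs)] at h1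
    have h2 : w - cen x k = G (Af x) (Bf x y) w - cen y k := by
      nth_rewrite 1 [h1]
      abel
    have h3 := hw k
    rw [h2] at h3
    linarith

end Pool.Agent.Q198.TD
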